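import Pool.Agent.H49.FOS.Defs

/-!
# FOS: statements of the modules
-/

set_option autoImplicit false

namespace Pool.FOS

open MvPolynomial

/-! ### From the tangent map to the general form -/

/-- JAC: the Jacobian criterion for algebraic independence. -/
def JACStmt : Prop :=
  ∀ (M L : Type) [Fintype M] [Fintype L] (φ : L → MvPolynomial M ℂ) (u : M → ℂ),
    (∀ y : L → ℂ, ∃ v : M → ℂ, ∀ l, ∑ j, v j * eval u (pderiv j (φ l)) = y l) →
    AlgebraicIndependent ℂ φ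

/-- DOM: a dominant polynomial map is onto over a nonempty open set. -/
def DOMStmt : Prop :=
  ∀ (M L : Type) [Fintype M] [Fintype L] (φ : L → MvPolynomial M ℂ), AlgebraicIndependent ℂ φ →
    ∃ P : MvPolynomial L ℂ, P ≠ 0 ∧ ∀ y : L → ℂ, eval y P ≠ 0 → ∃ u : M → ℂ, ∀ l, eval u (φ l) = y l

/-- TER: the tangent map. -/
def TERStmt : Prop := ∀ n k d s : ℕ, 1 ≤ k → Onto n k d s → GenLe n k d s

/-! ### The vanishing theorem -/

/-- DES: Descartes' rule. -/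
def DESStmt : Prop :=
  ∀ (s m : ℕ) (t : Fin s → ℝ), (∀ i, 0 < t i) → Function.Injective t → ∀ f : Polynomial ℂ,
    (∀ i, (Polynomial.X - Polynomial.C (t i : ℂ)) ^ m ∣ f) → f.support.card ≤ s * m → f = 0

/-- RDM: division by the equations of the curve. -/
def RDMStmt : Prop :=
  ∀ p N D : ℕ, 2 ≤ N → ∀ A : MvPolynomial (Fin (p + 1)) ℂ, A.totalDegree ≤ D →
    ∃ (T : Finset (Fin p →₀ ℕ)) (c : (Fin p →₀ ℕ) → MvPolynomial (Fin (p + 1)) ℂ),
      (∀ α, ∀ a ∈ (c α).support, (∀ i : Fin p, a i.castSucc < N) ∧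
        a.degree + N * α.degree ≤ D) ∧ A = ∑ α ∈ T, fa p N α * c α

/-- SGF: the change of coordinates, values. -/
def SGFStmt : Prop :=
  ∀ p N : ℕ, (∀ i : Fin p, sg p N (ff p N i) = X i) ∧
    (∀ A : MvPolynomial (Fin (p + 1)) ℂ, coeff 0 (sg p N A) = rs p N A) ∧
    ∀ (t : ℂ) (A : MvPolynomial (Fin (p + 1)) ℂ),
      Polynomial.eval t (coeff 0 (sg p N A)) = eval (pt p N t) A

/-- LEV: the lowest level of the expansion. -/
def LEVStmt : Prop :=
  ∀ (p N r : ℕ) (T : Finset (Fin p →₀ ℕ)) (c : (Fin p →₀ ℕ) → MvPolynomial (Fin (p + 1)) ℂ),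
    (∀ α ∈ T, α.degree < r → c α = 0) → ∀ α ∈ T, α.degree = r →
    coeff α (sg p N (∑ β ∈ T, fa p N β * c β)) = rs p N (c α)

/-- ORD: multiplicity at a point of the curve. -/
def ORDStmt : Prop :=
  ∀ (p N m : ℕ) (t : ℂ) (A : MvPolynomial (Fin (p + 1)) ℂ), A ∈ mI (pt p N t) ^ m →
    ∀ α : Fin p →₀ ℕ, (Polynomial.X - Polynomial.C t) ^ (m - α.degree) ∣ coeff α (sg p N A)

/-- CRD: a reduced polynomial is determined by its restriction, which has few monomials. -/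
def CRDStmt : Prop :=
  ∀ (p N e : ℕ) (c : MvPolynomial (Fin (p + 1)) ℂ), (∀ a ∈ c.support, Rdc p N e a) →
    (rs p N c).support.card ≤ hh p N e ∧ (rs p N c = 0 → c = 0)

/-- HLV: the number of conditions is sufficient at all levels. -/
def HLVStmt : Prop :=
  ∀ p N m D s r : ℕ, D < m * N → hh p N D ≤ s * m → r < m → r * N ≤ D →
    hh p N (D - r * N) ≤ s * (m - r)

/-- VAN: the vanishing theorem. -/
def VANStmt : Prop :=
  ∀ p N m D s : ℕ, 2 ≤ N → D < m * N → hh p N D ≤ s * m → Van p N m D s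

/-! ### Duality -/

/-- DU1: the polynomial of a functional. -/
def DU1Stmt : Prop :=
  ∀ (p k d : ℕ) (φ : MvPolynomial (Fin (p + 2)) ℂ →ₗ[ℂ] ℂ), ∃ A : MvPolynomial (Fin (p + 1)) ℂ,
    A.totalDegree ≤ k * d ∧
    (∀ x : Fin (p + 1) → ℂ, eval x A = φ ((∑ i : Fin (p + 1), C (x i) * X i.castSucc +
      X (Fin.last (p + 1))) ^ (k * d))) ∧
    (A = 0 → ∀ F : MvPolynomial (Fin (p + 2)) ℂ, F.IsHomogeneous (k * d) → φ F = 0)

/-- DU2: the multiplicity of the polynomial of a functional. -/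
def DU2Stmt : Prop :=
  ∀ (p k d : ℕ) (φ : MvPolynomial (Fin (p + 2)) ℂ →ₗ[ℂ] ℂ) (A : MvPolynomial (Fin (p + 1)) ℂ)
    (P : Fin (p + 1) → ℂ), 1 ≤ k →
    (∀ x : Fin (p + 1) → ℂ, eval x A = φ ((∑ i : Fin (p + 1), C (x i) * X i.castSucc +
      X (Fin.last (p + 1))) ^ (k * d))) →
    (∀ h : MvPolynomial (Fin (p + 2)) ℂ, h.IsHomogeneous d →
      φ ((∑ i : Fin (p + 1), C (P i) * X i.castSucc + X (Fin.last (p + 1))) ^ ((k - 1) * d) * h)
        = 0) → A ∈ mI P ^ (d + 1)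

/-- ONT: the tangent map is onto. -/
def ONTStmt : Prop :=
  ∀ p N k d s : ℕ, 1 ≤ k → Van p N (d + 1) (k * d) s → Onto (p + 2) k d s

/-! ### Numbers -/

/-- NU1: the number of reduced exponents. -/
def NU1Stmt : Prop :=
  ∀ p N e : ℕ, 1 ≤ N → p * (N - 1) ≤ e + 1 →
    2 * hh p N e + N ^ p * (p * (N - 1)) = N ^ p * (2 * (e + 1))

/-- NU2: the explicit bound. -/
def NU2Stmt : Prop :=
  ∀ p k d j : ℕ, 2 ≤ k → 1 ≤ d → p ≤ d → 2 * j * (d + 1) ≤ (p + 2) * (k - 1) * k ^ p →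
    hh p k (k * d) ≤ (k ^ (p + 1) - j) * (d + 1)

/-- NU3: one power less than `k ^ (n - 1)`, all `d` below the threshold. -/
def NU3Stmt : Prop :=
  ∀ p k d : ℕ, 2 ≤ k → 1 ≤ d → 1 ≤ p → 2 * (d + 1) ≤ (p + 2) * (k - 1) * k ^ p →
    hh p k (k * d) ≤ (k ^ (p + 1) - 1) * (d + 1)

/-- GEN: the general bound. -/
def GENStmt : Prop :=
  ∀ p k d N s : ℕ, 1 ≤ k → 1 ≤ d → 2 ≤ N → k * d < N * (d + 1) → hh p N (k * d) ≤ s * (d + 1) →
    GenLe (p + 2) k d s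

end Pool.FOS
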