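import Pool.Agent.H49.FOS.S1

/-!
# FOS, module TER: the tangent map and the general form
-/

set_option autoImplicit false
set_option linter.unusedSectionVars false

namespace Pool.FOS

open MvPolynomial

namespace TER

/-- exponents of degree `d` -/
abbrev Ex (n d : ℕ) := {m : Fin n →₀ ℕ // m.degree = d}

noncomputable instance exFintype (n d : ℕ) : Fintype (Ex n d) :=
  have : Finite (Ex n d) := (Finsupp.finite_of_degree_eq (σ := Fin n) d).to_subtype
  Fintype.ofFinite _

section
variable {n d : ℕ} {R : Type*} [CommSemiring R]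

/-- the form with given coefficients -/
noncomputable def frm (c : Ex n d → R) : MvPolynomial (Fin n) R := ∑ μ, monomial μ.1 (c μ)

theorem coeff_frm (c : Ex n d → R) (m : Fin n →₀ ℕ) :
    coeff m (frm c) = if h : m.degree = d then c ⟨m, h⟩ else 0 := by
  classical
  unfold frm
  rw [coeff_sum]
  by_cases h : m.degree = d
  · rw [dif_pos h, Finset.sum_eq_single (⟨m, h⟩ : Ex n d)]
    · simp
    · intro b _ hb
      rw [coeff_monomial, if_neg]
      intro h1
      exact hb (Subtype.ext h1)
    · intro h1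
      exact absurd (Finset.mem_univ _) h1
  · rw [dif_neg h]
    refine Finset.sum_eq_zero fun b _ => ?_
    rw [coeff_monomial, if_neg]
    intro h1
    exact h (h1 ▸ b.2)

theorem frm_hom (c : Ex n d → R) : (frm c).IsHomogeneous d :=
  IsHomogeneous.sum _ _ _ fun μ _ => isHomogeneous_monomial _ μ.2

theorem frm_coeff {F : MvPolynomial (Fin n) R} (hF : F.IsHomogeneous d) :
    frm (fun μ : Ex n d => coeff μ.1 F) = F := by
  ext m
  rw [coeff_frm]
  by_cases h : m.degree = d
  · rw [dif_pos h]
  · rw [dif_neg h]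
    by_contra h1
    have h2 := hF (d := m) fun h2 => h1 h2.symm
    exact h ((DFunLike.congr_fun (Finsupp.degree_eq_weight_one (σ := Fin n) (R := ℕ)) m).trans h2)

end

/-- powers with an infinitesimal -/
theorem pow_eps {R : Type*} [CommRing R] (A B e : R) (he : e * e = 0) (k : ℕ) :
    (A + e * B) ^ k = A ^ k + e * (k * A ^ (k - 1) * B) := by
  induction k with
  | zero => simp
  | succ k ih =>
    rw [pow_succ, ih]
    rcases k with _ | k
    · simp
    · simp only [Nat.add_sub_cancel]
      push_cast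
      linear_combination (((k : R) + 1) * A ^ k * B * B) * he

section
variable {M : Type} [Fintype M]

/-- the ring homomorphism to the dual numbers -/
noncomputable def psi (u v : M → ℂ) : MvPolynomial M ℂ →ₐ[ℂ] DualNumber ℂ :=
  aeval fun j => (algebraMap ℂ (DualNumber ℂ) (u j)) + DualNumber.eps * algebraMap ℂ (DualNumber ℂ) (v j)

theorem psi_eq (u v : M → ℂ) (P : MvPolynomial M ℂ) :
    psi u v P = algebraMap ℂ (DualNumber ℂ) (eval u P) +
      DualNumber.eps * algebraMap ℂ (DualNumber ℂ) (∑ j, v j * eval u (pderiv j P)) := by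
  classical
  have hee : (DualNumber.eps : DualNumber ℂ) * DualNumber.eps = 0 := DualNumber.eps_mul_eps
  induction P using MvPolynomial.induction_on with
  | C a => simp [psi]
  | add p q hp hq =>
    rw [map_add, hp, hq]
    simp only [map_add, mul_add, Finset.sum_add_distrib]
    ring
  | mul_X p i hp =>
    rw [map_mul, hp]
    have h1 : psi u v (X i) = algebraMap ℂ (DualNumber ℂ) (u i) +
        DualNumber.eps * algebraMap ℂ (DualNumber ℂ) (v i) := by simp [psi]
    have h2 : ∑ j, v j * eval u (pderiv j (p * X i)) =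
        u i * (∑ j, v j * eval u (pderiv j p)) + v i * eval u p := by
      have : ∀ j, v j * eval u (pderiv j (p * X i)) =
          u i * (v j * eval u (pderiv j p)) + (if j = i then v i * eval u p else 0) := by
        intro j
        rw [Derivation.leibniz, pderiv_X]
        simp only [smul_eq_mul, map_add, map_mul, eval_X]
        by_cases h : j = i
        · subst h
          simp
          ring
        · simp [h]
          ring
      simp only [this, Finset.sum_add_distrib, Finset.mul_sum, Finset.sum_ite_eq',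
        Finset.mem_univ, if_true]
    rw [h1, h2, map_mul, eval_X, map_add, map_mul, map_mul, map_mul]
    linear_combination (algebraMap ℂ (DualNumber ℂ) (∑ j, v j * eval u (pderiv j p)) *
      algebraMap ℂ (DualNumber ℂ) (v i)) * hee

end

/-- exponents of the unknown forms -/
abbrev Mx (n d s : ℕ) := Fin s × Ex n d

/-- the universal sum of powers -/
noncomputable def Gu (n k d s : ℕ) : MvPolynomial (Fin n) (MvPolynomial (Mx n d s) ℂ) :=
  ∑ i, (frm fun μ : Ex n d => (X (i, μ) : MvPolynomial (Mx n d s) ℂ)) ^ k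

/-- its coefficients -/
noncomputable def ph (n k d s : ℕ) (m : Ex n (k * d)) : MvPolynomial (Mx n d s) ℂ :=
  coeff m.1 (Gu n k d s)

theorem map_frm {n d : ℕ} {R S : Type*} [CommSemiring R] [CommSemiring S] (f : R →+* S)
    (c : Ex n d → R) : map f (frm c) = frm fun μ => f (c μ) := by
  unfold frm
  rw [map_sum]
  simp [map_monomial]

theorem eval_ph {n k d s : ℕ} (u : Mx n d s → ℂ) (m : Ex n (k * d)) :
    eval u (ph n k d s m) = coeff m.1 (∑ i, (frm fun μ : Ex n d => u (i, μ)) ^ k) := by
  unfold ph Gu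
  rw [← coeff_map, map_sum]
  congr 1
  refine Finset.sum_congr rfl fun i _ => ?_
  rw [map_pow, map_frm]
  simp

theorem psi_ph {n k d s : ℕ} (u v : Mx n d s → ℂ) (m : Ex n (k * d)) :
    ∑ j, v j * eval u (pderiv j (ph n k d s m)) =
      coeff m.1 (∑ i, (k : MvPolynomial (Fin n) ℂ) * (frm fun μ : Ex n d => u (i, μ)) ^ (k - 1) *
        frm fun μ : Ex n d => v (i, μ)) := by
  have hee : (DualNumber.eps : DualNumber ℂ) * DualNumber.eps = 0 := DualNumber.eps_mul_eps
  have h1 := psi_eq u v (ph n k d s m)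
  have h2 : psi u v (ph n k d s m) = coeff m.1 (∑ i, (map (algebraMap ℂ (DualNumber ℂ))
      (frm fun μ : Ex n d => u (i, μ)) + C DualNumber.eps * map (algebraMap ℂ (DualNumber ℂ))
      (frm fun μ : Ex n d => v (i, μ))) ^ k) := by
    unfold ph Gu
    have : ∀ x, psi u v x = (psi u v : MvPolynomial (Mx n d s) ℂ →+* DualNumber ℂ) x :=
      fun x => rfl
    rw [this, ← coeff_map, map_sum]
    congr 1
    refine Finset.sum_congr rfl fun i _ => ?_
    rw [map_pow, map_frm]
    congr 1
    rw [map_frm, map_frm]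
    unfold frm
    rw [Finset.mul_sum, ← Finset.sum_add_distrib]
    refine Finset.sum_congr rfl fun μ _ => ?_
    rw [C_mul_monomial, ← map_add]
    congr 1
    simp [psi]
  have h3 : ∀ A B : MvPolynomial (Fin n) ℂ, (map (algebraMap ℂ (DualNumber ℂ)) A +
      C DualNumber.eps * map (algebraMap ℂ (DualNumber ℂ)) B) ^ k =
      map (algebraMap ℂ (DualNumber ℂ)) (A ^ k) + C DualNumber.eps *
      map (algebraMap ℂ (DualNumber ℂ)) ((k : MvPolynomial (Fin n) ℂ) * A ^ (k - 1) * B) := by
    intro A B
    have hC : (C DualNumber.eps : MvPolynomial (Fin n) (DualNumber ℂ)) * C DualNumber.eps = 0 := by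
      rw [← C_mul, hee, C_0]
    have := pow_eps (map (algebraMap ℂ (DualNumber ℂ)) A) (map (algebraMap ℂ (DualNumber ℂ)) B)
      (C DualNumber.eps) hC k
    simpa using this
  simp only [h3, Finset.sum_add_distrib, ← Finset.mul_sum, ← map_sum] at h2
  rw [coeff_add, coeff_C_mul, coeff_map, coeff_map, h1] at h2
  generalize ∑ j, v j * eval u (pderiv j (ph n k d s m)) = S at h2 ⊢
  generalize coeff m.1 (∑ i, (k : MvPolynomial (Fin n) ℂ) *
    (frm fun μ : Ex n d => u (i, μ)) ^ (k - 1) * frm fun μ : Ex n d => v (i, μ)) = S' at h2 ⊢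
  have h4 := congrArg TrivSqZeroExt.snd h2
  simpa [TrivSqZeroExt.algebraMap_eq_inl] using h4

end TER

open TER in
/-- TER. -/
theorem t_ter (hJAC : JACStmt) (hDOM : DOMStmt) : TERStmt := by
  intro n k d s hk ⟨g, hg, hon⟩
  let u : Mx n d s → ℂ := fun j => coeff j.2.1 (g j.1)
  have hu : ∀ i, (frm fun μ : Ex n d => u (i, μ)) = g i := fun i => frm_coeff (hg i)
  have hai : AlgebraicIndependent ℂ (ph n k d s) := by
    refine hJAC _ _ _ u fun y => ?_
    obtain ⟨h, hh, hF⟩ := hon (C (k : ℂ)⁻¹ * frm y) ((isHomogeneous_C _ _).mul (frm_hom y) |> fun h =>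
      by simpa using h)
    refine ⟨fun j => coeff j.2.1 (h j.1), fun m => ?_⟩
    rw [psi_ph]
    have h1 : ∀ i, (frm fun μ : Ex n d => coeff μ.1 (h i)) = h i := fun i => frm_coeff (hh i)
    simp only [hu, h1]
    have h2 : ∑ i, (k : MvPolynomial (Fin n) ℂ) * g i ^ (k - 1) * h i = frm y := by
      simp only [mul_assoc]
      rw [← Finset.mul_sum, ← hF, ← mul_assoc]
      have : (k : MvPolynomial (Fin n) ℂ) * C (k : ℂ)⁻¹ = 1 := by
        rw [← map_natCast (C : ℂ →+* MvPolynomial (Fin n) ℂ) k, ← C_mul, mul_inv_cancel₀, C_1]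
        exact_mod_cast (by omega : k ≠ 0)
      rw [this, one_mul]
    rw [h2, coeff_frm, dif_pos m.2]
  obtain ⟨P, hP, hPu⟩ := hDOM _ _ _ hai
  refine ⟨P, hP, fun F hF hne => ?_⟩
  obtain ⟨w, hw⟩ := hPu _ hne
  refine ⟨fun i => frm fun μ : Ex n d => w (i, μ), fun i => frm_hom _, ?_⟩
  have h5 : (∑ i : Fin s, (frm fun μ : Ex n d => w (i, μ)) ^ k).IsHomogeneous (k * d) := by
    refine IsHomogeneous.sum _ _ _ fun i _ => ?_
    have := (frm_hom fun μ : Ex n d => w (i, μ)).pow k
    rwa [mul_comm] at this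
  rw [← frm_coeff hF, ← frm_coeff h5]
  congr 1
  funext m
  rw [← eval_ph]
  exact (hw m).symm

end Pool.FOS
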