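import Pool.Agent.H49.FOS.TER
import Pool.Agent.H61.FOS.JAC
import Pool.Agent.H61.FOS.VAN
import Pool.Agent.H62.FOS.DES
import Pool.Agent.H62.FOS.DOM
import Pool.Agent.H97.FOS.CRD
import Pool.Agent.H97.FOS.RDM
import Pool.Agent.H36.FOS.LEV
import Pool.Agent.H36.FOS.ORD
import Pool.Agent.H36.FOS.SGF
import Pool.Agent.H27.FOS.DU1
import Pool.Agent.H27.FOS.DU2
import Pool.Agent.H27.FOS.ONT
import Pool.Agent.H59.FOS.Num

/-!
# FOS: assembly
-/

set_option autoImplicit false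

namespace Pool.FOS

/-- The general bound. -/
theorem gen_all : GENStmt :=
  t_gen (t_van t_des t_rdm (t_LEV t_SGF) (t_ORD t_SGF) t_crd t_hlv) (t_ont t_du1 t_du2)
    (t_ter t_jac t_dom)

/-- The bounds. -/
theorem fos_all (n k d : ℕ) (hn : 2 ≤ n) (hk : 2 ≤ k) (hd : 1 ≤ d) :
    (∀ N s : ℕ, k * d < N * (d + 1) →
      ∑ a : Fin (n - 2) → Fin N, (k * d + 1 - ∑ i, (a i : ℕ)) ≤ s * (d + 1) → GenLe n k d s) ∧
    (n ≤ d + 2 → GenLe n k d (k ^ (n - 1) - n * (k - 1) * k ^ (n - 2) / (2 * (d + 1)))) ∧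
    (3 ≤ n → 2 * (d + 1) ≤ n * (k - 1) * k ^ (n - 2) → GenLe n k d (k ^ (n - 1) - 1)) := by
  obtain ⟨p, rfl⟩ : ∃ p, n = p + 2 := ⟨n - 2, by omega⟩
  have e1 : p + 2 - 2 = p := by omega
  have e2 : p + 2 - 1 = p + 1 := by omega
  rw [e1, e2]
  have hkd : k * d < k * (d + 1) := by nlinarith
  refine ⟨fun N s hN hs => ?_, fun h => ?_, fun h3 h => ?_⟩
  · refine gen_all p k d N s (by omega) hd ?_ hN hs
    by_contra hN2
    have h1 : N ≤ 1 := by omega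
    have h2 : N * (d + 1) ≤ 1 * (d + 1) := Nat.mul_le_mul_right _ h1
    have h4 : 2 * d ≤ k * d := Nat.mul_le_mul_right _ hk
    omega
  · refine gen_all p k d k _ (by omega) hd hk hkd ?_
    refine t_nu2 t_nu1 p k d _ hk hd (by omega) ?_
    have h1 := Nat.div_mul_le_self ((p + 2) * (k - 1) * k ^ p) (2 * (d + 1))
    calc 2 * ((p + 2) * (k - 1) * k ^ p / (2 * (d + 1))) * (d + 1)
        = (p + 2) * (k - 1) * k ^ p / (2 * (d + 1)) * (2 * (d + 1)) := by ring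
      _ ≤ _ := h1
  · refine gen_all p k d k _ (by omega) hd hk hkd ?_
    exact t_nu3 (t_nu2 t_nu1) t_hlv p k d hk hd (by omega) h

end Pool.FOS
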