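import Mathlib

/-!
# FOS: sums of `k`-th powers of forms of degree `d` (definitions)
-/

set_option autoImplicit false

namespace Pool.FOS

open MvPolynomial

/-- `F` is a sum of `s` `k`-th powers of forms of degree `d` in `n` variables. -/
def SumPow (n k d s : ℕ) (F : MvPolynomial (Fin n) ℂ) : Prop :=
  ∃ g : Fin s → MvPolynomial (Fin n) ℂ, (∀ i, (g i).IsHomogeneous d) ∧ F = ∑ i, g i ^ k

/-- The general form of degree `k * d` in `n` variables is a sum of `s` `k`-th powers of forms of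
degree `d`: there is a nonzero polynomial `P` in the coefficients of forms of degree `k * d` such
that every form `F` with `P(F) ≠ 0` is such a sum. -/
def GenLe (n k d s : ℕ) : Prop :=
  ∃ P : MvPolynomial {m : Fin n →₀ ℕ // m.degree = k * d} ℂ, P ≠ 0 ∧
    ∀ F : MvPolynomial (Fin n) ℂ, F.IsHomogeneous (k * d) →
      MvPolynomial.eval (fun m => coeff m.1 F) P ≠ 0 → SumPow n k d s F

/-- The tangent map at some point is onto. -/
def Onto (n k d s : ℕ) : Prop :=
  ∃ g : Fin s → MvPolynomial (Fin n) ℂ, (∀ i, (g i).IsHomogeneous d) ∧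
    ∀ F : MvPolynomial (Fin n) ℂ, F.IsHomogeneous (k * d) →
      ∃ h : Fin s → MvPolynomial (Fin n) ℂ, (∀ i, (h i).IsHomogeneous d) ∧
        F = ∑ i, g i ^ (k - 1) * h i

/-- The point `(t, t ^ N, t ^ (N ^ 2), ...)` of the curve. -/
noncomputable def pt (p N : ℕ) (t : ℂ) : Fin (p + 1) → ℂ := fun i => t ^ N ^ (i : ℕ)

/-- The linear form of the point. -/
noncomputable def lf (p N : ℕ) (t : ℂ) : MvPolynomial (Fin (p + 2)) ℂ :=
  ∑ i : Fin (p + 1), C (pt p N t i) * X i.castSucc + X (Fin.last (p + 1))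

/-- The maximal ideal of a point. -/
noncomputable def mI {q : ℕ} (P : Fin q → ℂ) : Ideal (MvPolynomial (Fin q) ℂ) :=
  Ideal.span (Set.range fun i => X i - C (P i))

/-- The equations of the curve. -/
noncomputable def ff (p N : ℕ) (i : Fin p) : MvPolynomial (Fin (p + 1)) ℂ :=
  X i.succ - X i.castSucc ^ N

/-- The monomials in the equations. -/
noncomputable def fa (p N : ℕ) (α : Fin p →₀ ℕ) : MvPolynomial (Fin (p + 1)) ℂ :=
  ∏ i, ff p N i ^ α i

/-- The values of the coordinates in the coordinates `t, f`. -/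
noncomputable def sx (p N : ℕ) : Fin (p + 1) → MvPolynomial (Fin p) (Polynomial ℂ) :=
  Fin.induction (C Polynomial.X) (fun i x => x ^ N + X i)

/-- The change of coordinates. -/
noncomputable def sg (p N : ℕ) :
    MvPolynomial (Fin (p + 1)) ℂ →ₐ[ℂ] MvPolynomial (Fin p) (Polynomial ℂ) :=
  aeval (sx p N)

/-- The restriction to the curve. -/
noncomputable def rs (p N : ℕ) : MvPolynomial (Fin (p + 1)) ℂ →ₐ[ℂ] Polynomial ℂ :=
  aeval (fun i => (Polynomial.X : Polynomial ℂ) ^ N ^ (i : ℕ))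

/-- Reduced exponents of degree at most `e`. -/
def Rdc (p N e : ℕ) (a : Fin (p + 1) →₀ ℕ) : Prop :=
  (∀ i : Fin p, a i.castSucc < N) ∧ a.degree ≤ e

/-- The number of reduced exponents of degree at most `e`. -/
def hh (p N e : ℕ) : ℕ := ∑ a : Fin p → Fin N, (e + 1 - ∑ i, (a i : ℕ))

/-- The forms of degree at most `D` with points of multiplicity `m` vanish. -/
def Van (p N m D s : ℕ) : Prop :=
  ∀ A : MvPolynomial (Fin (p + 1)) ℂ, A.totalDegree ≤ D →
    (∀ i : Fin s, A ∈ mI (pt p N ((i : ℕ) + 1)) ^ m) → A = 0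

end Pool.FOS
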